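import Pool.Agent.Lib.MP_acdf0e_co.Two

/-!
# The set `S` for `x ≤ 1/3`
-/

namespace Pool.Agent.Results.MP_acdf0e_co.ExactUpToThird

open Pool.Agent.MP_acdf0e_co

theorem deg_lt {V : Type} [Fintype V] (G : SimpleGraph V) (v : V) :
    deg G v + 1 ≤ Fintype.card V := by
  classical
  unfold deg
  rw [Set.ncard_eq_toFinset_card']
  have h : (G.neighborSet v).toFinset ⊆ Finset.univ.erase v := by
    intro w hw
    rw [Set.mem_toFinset] at hw
    rw [Finset.mem_erase]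
    exact ⟨fun h => G.loopless.irrefl v (by rw [h] at hw; exact hw), Finset.mem_univ _⟩
  have h2 := Finset.card_le_card h
  rw [Finset.card_erase_of_mem (Finset.mem_univ v), Finset.card_univ] at h2
  have : 0 < Fintype.card V := Fintype.card_pos_iff.2 ⟨v⟩
  omega

/-- For `x + y ≥ 1`, `y > 0` the degree condition cannot be satisfied by large graphs. -/
theorem P_of_one_le (x y : ℝ) (hy0 : 0 < y) (hy1 : y ≤ 1) (h : 1 ≤ x + y) : P x y := by
  intro β hβ
  obtain ⟨n₀, hn₀⟩ := exists_nat_gt (2 / y)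
  refine ⟨n₀, fun V _ G c hV hG => ?_⟩
  exfalso
  obtain ⟨e, -, he⟩ := hG
  have hnn : (n₀ : ℝ) ≤ (Fintype.card V : ℝ) := by exact_mod_cast hV
  have hyn : 2 < y * (Fintype.card V : ℝ) := by
    rw [div_lt_iff₀ hy0] at hn₀
    nlinarith
  have hn0 : (0 : ℝ) ≤ (Fintype.card V : ℝ) := by positivity
  obtain ⟨j, hj⟩ : ∃ j : ℕ, j = ⌈y * (Fintype.card V : ℝ)⌉₊ := ⟨_, rfl⟩
  have hc1 : y * (Fintype.card V : ℝ) ≤ (j : ℝ) := by rw [hj]; exact Nat.le_ceil _
  have hc2 : (j : ℝ) < y * (Fintype.card V : ℝ) + 1 := by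
    rw [hj]; exact Nat.ceil_lt_add_one (by positivity)
  have hc3 : 3 ≤ j := by
    have h1 : (2 : ℝ) < (j : ℝ) := lt_of_lt_of_le hyn hc1
    have h2 : 2 < j := by exact_mod_cast h1
    omega
  have hc4 : j ≤ Fintype.card V := by
    rw [hj]
    apply Nat.ceil_le.2
    nlinarith
  obtain ⟨i, hi⟩ : ∃ i : ℕ, i + 2 = j := ⟨j - 2, by omega⟩
  have hlt : i < Fintype.card V := by omega
  have hcast : (i : ℝ) + 2 = (j : ℝ) := by exact_mod_cast hi
  have h1 := he ⟨i, hlt⟩ (by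
    show ((i : ℕ) : ℝ) + 1 < y * (Fintype.card V : ℝ)
    linarith)
  have h2 : (deg G (e ⟨i, hlt⟩) : ℝ) + 1 ≤ (Fintype.card V : ℝ) := by
    exact_mod_cast deg_lt G _
  have h3 : ((i : ℝ) + 1) + (x + β) * (Fintype.card V : ℝ) < (deg G (e ⟨i, hlt⟩) : ℝ) := h1
  have hnpos : 0 < (Fintype.card V : ℝ) := by nlinarith
  have h4 : 0 < β * (Fintype.card V : ℝ) := by positivity
  have h5 : (Fintype.card V : ℝ) ≤ (x + y) * (Fintype.card V : ℝ) := by nlinarith
  nlinarith

/-- **Main theorem.** For `0 ≤ x ≤ 1/3` and `0 ≤ y ≤ 1`, the property `P(x, y)` holds if and only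
if `x + y ≥ 1`. -/
theorem result (x y : ℝ) (hx0 : 0 ≤ x) (hx1 : x ≤ 1 / 3) (hy0 : 0 ≤ y) (hy1 : y ≤ 1) :
    P x y ↔ 1 ≤ x + y := by
  constructor
  · intro h
    by_contra hcon
    push Not at hcon
    rcases lt_or_eq_of_le hx1 with c | c
    · refine not_P_two x y 0 (min (1 - x - y) (1 - 3 * x)) le_rfl (by linarith) hy0
        (lt_min (by linarith) (by linarith)) ?_ ?_ (Or.inl ⟨?_, ?_⟩) h
      · have := min_le_left (1 - x - y) (1 - 3 * x); linarith
      · have := min_le_right (1 - x - y) (1 - 3 * x); linarith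
      · have := min_le_right (1 - x - y) (1 - 3 * x); linarith
      · have := min_le_right (1 - x - y) (1 - 3 * x); linarith
    · obtain ⟨δ, hδ0, hδ1, hδ2⟩ : ∃ δ : ℝ, 0 < δ ∧ 10 * δ ≤ 2 / 3 - y ∧ 1000 * δ ≤ 1 := by
        refine ⟨min ((2 / 3 - y) / 10) (1 / 1000), lt_min (by linarith) (by norm_num), ?_, ?_⟩
        · have := min_le_left ((2 / 3 - y) / 10) (1 / 1000 : ℝ); linarith
        · have := min_le_right ((2 / 3 - y) / 10) (1 / 1000 : ℝ); linarith
      exact not_P_two x y (3 * x - 1 + δ) δ (by linarith) (by linarith) hy0 hδ0 (by linarith)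
        (by linarith) (Or.inl ⟨by linarith, by linarith⟩) h
  · intro h
    exact P_of_one_le x y (by linarith) hy1 h

end Pool.Agent.Results.MP_acdf0e_co.ExactUpToThird
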