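import Pool.Agent.Lib.MP_acdf0e_co.Two

/-!
# A necessary condition for `P(x, y)`; the conjecture `P(1/2, 1/6)` is false
-/

namespace Pool.Agent.Results.MP_acdf0e_co.NecessaryCondition

open Pool.Agent.MP_acdf0e_co

/-- The lower bound for `y` in the necessary condition: `1 - x` for `x < 1/3`, `2 - 4x` for
`1/3 ≤ x < 3/8`, `(4 - 7x)/3` for `3/8 ≤ x < 2/5` and `1 - 3x/2` for `x ≥ 2/5`. -/
noncomputable def frontier (x : ℝ) : ℝ :=
  if x < 1 / 3 then 1 - x
  else if x < 3 / 8 then 2 - 4 * x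
  else if x < 2 / 5 then (4 - 7 * x) / 3
  else 1 - 3 / 2 * x

/-- **Main theorem.** If `P(x, y)` holds, then `y ≥ frontier x`.  In particular `P(x, y)` fails
for all `0 ≤ x < 2/3` and `0 ≤ y < 1 - 3x/2`, so the conjectured `P(1/2, 1/6)` is false. -/
theorem result (x y : ℝ) (hx0 : 0 ≤ x) (hx1 : x ≤ 1) (hy0 : 0 ≤ y) (hy1 : y ≤ 1) (h : P x y) :
    frontier x ≤ y := by
  by_contra hcon
  push Not at hcon
  unfold frontier at hcon
  split_ifs at hcon with c1 c2 c3
  · -- `x < 1/3`, with `σ = 0`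
    refine not_P_two x y 0 (min (1 - x - y) (1 - 3 * x)) le_rfl (by linarith) hy0
      (lt_min (by linarith) (by linarith)) ?_ ?_ (Or.inl ⟨?_, ?_⟩) h
    · have := min_le_left (1 - x - y) (1 - 3 * x); linarith
    · have := min_le_right (1 - x - y) (1 - 3 * x); linarith
    · have := min_le_right (1 - x - y) (1 - 3 * x); linarith
    · have := min_le_right (1 - x - y) (1 - 3 * x); linarith
  · -- `1/3 ≤ x < 3/8`
    push Not at c1
    obtain ⟨δ, hδ0, hδ1, hδ2⟩ : ∃ δ : ℝ, 0 < δ ∧ 10 * δ ≤ 2 - 4 * x - y ∧ 10 * δ ≤ 3 / 8 - x := by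
      refine ⟨min ((2 - 4 * x - y) / 10) ((3 / 8 - x) / 10),
        lt_min (by linarith) (by linarith), ?_, ?_⟩
      · have := min_le_left ((2 - 4 * x - y) / 10) ((3 / 8 - x) / 10); linarith
      · have := min_le_right ((2 - 4 * x - y) / 10) ((3 / 8 - x) / 10); linarith
    exact not_P_two x y (3 * x - 1 + δ) δ (by linarith) (by linarith) hy0 hδ0 (by linarith)
      (by linarith) (Or.inl ⟨by linarith, by linarith⟩) h
  · -- `3/8 ≤ x < 2/5`
    push Not at c1 c2
    obtain ⟨δ, hδ0, hδ1, hδ2⟩ : ∃ δ : ℝ, 0 < δ ∧ 10 * δ ≤ (4 - 7 * x) / 3 - y ∧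
        10 * δ ≤ 2 / 5 - x := by
      refine ⟨min (((4 - 7 * x) / 3 - y) / 10) ((2 / 5 - x) / 10),
        lt_min (by linarith) (by linarith), ?_, ?_⟩
      · have := min_le_left (((4 - 7 * x) / 3 - y) / 10) ((2 / 5 - x) / 10); linarith
      · have := min_le_right (((4 - 7 * x) / 3 - y) / 10) ((2 / 5 - x) / 10); linarith
    exact not_P_two x y ((4 * x - 1) / 3 + δ) δ (by linarith) (by linarith) hy0 hδ0 (by linarith)
      (by linarith) (Or.inr ⟨by linarith, by linarith⟩) h
  · exact not_P_one x y hx0 hy0 hcon h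

/-- The conjecture is false. -/
theorem conjecture_false : ¬ P (1 / 2) (1 / 6) := by
  intro h
  have := result (1 / 2) (1 / 6) (by norm_num) (by norm_num) (by norm_num) (by norm_num) h
  unfold frontier at this
  norm_num at this

end Pool.Agent.Results.MP_acdf0e_co.NecessaryCondition
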